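import Pool.Agent.W297.LP.Stm

/-!
Project LP (helper297), part ALM (helper50).
-/

set_option autoImplicit false

open Finset

namespace Pool.Agent.W50.LP

open Pool.Agent.W297.LP

theorem ker_co {V : Type} {W : V → V → ℝ} (h : Ker W) : Ker (co W) where
  symm := fun x y => by simp only [co]; rw [h.symm x y]
  zo := fun x y => by
    simp only [co]
    rcases h.zo x y with h1 | h1
    · right; rw [h1]; ring
    · left; rw [h1]; ring

theorem ker_nn {V : Type} {W : V → V → ℝ} (h : Ker W) (x y : V) : 0 ≤ W x y := by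
  rcases h.zo x y with h1 | h1 <;> rw [h1]; norm_num

theorem ker_le {V : Type} {W : V → V → ℝ} (h : Ker W) (x y : V) : W x y ≤ 1 := by
  rcases h.zo x y with h1 | h1 <;> rw [h1]; norm_num

theorem dg_le {V : Type} [Fintype V] {W : V → V → ℝ} (h : Ker W)
    (hn : 0 < Fintype.card V) (x : V) : dg W x ≤ 1 := by
  have hn' : (0 : ℝ) < (Fintype.card V : ℝ) := by exact_mod_cast hn
  unfold dg
  rw [div_le_one hn']
  calc ∑ y, W x y ≤ ∑ _y : V, (1 : ℝ) := sum_le_sum (fun y _ => ker_le h x y)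
    _ = (Fintype.card V : ℝ) := by simp

theorem ee_univ {V : Type} [Fintype V] (W : V → V → ℝ) :
    ee W univ univ = (∑ x, dg W x) / (Fintype.card V : ℝ) := by
  unfold ee dg
  rw [← sum_div, div_div]
  congr 1
  ring

theorem ee_mono {V : Type} [Fintype V] {W : V → V → ℝ} (h : Ker W) (D : Finset V) :
    ee W D D ≤ ee W univ univ := by
  unfold ee
  apply div_le_div_of_nonneg_right _ (by positivity)
  calc ∑ x ∈ D, ∑ y ∈ D, W x y ≤ ∑ x ∈ D, ∑ y, W x y := by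
        apply sum_le_sum
        intro x _
        exact sum_le_sum_of_subset_of_nonneg (subset_univ _) (fun y _ _ => ker_nn h x y)
    _ ≤ ∑ x, ∑ y, W x y := by
        apply sum_le_sum_of_subset_of_nonneg (subset_univ _)
        intro x _ _
        exact sum_nonneg (fun y _ => ker_nn h x y)

theorem ee_co {V : Type} [Fintype V] (W : V → V → ℝ) (D : Finset V)
    (_hn : 0 < Fintype.card V) :
    ee W D D = (ms D) ^ 2 - ee (co W) D D := by
  have h1 : ∑ x ∈ D, ∑ y ∈ D, co W x y = (D.card : ℝ) ^ 2 - ∑ x ∈ D, ∑ y ∈ D, W x y := by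
    simp only [co, sum_sub_distrib, sum_const, nsmul_eq_mul]
    ring
  unfold ee ms
  rw [h1, div_pow]
  ring

theorem num_low {m d1 u eW eC rho h : ℝ} (hm0 : 0 < m) (hm1 : m ≤ 1) (hd : 0 < d1)
    (hu : 1 - d1 ≤ u) (h1 : eC ≤ (1 - m) * u ^ 2 + h) (h2 : eW = u ^ 2 - eC) (h3 : eW ≤ rho) :
    m - 2 * d1 - h ≤ rho := by
  have h4 : 1 - 2 * d1 ≤ u ^ 2 := by
    have h41 : 0 ≤ (u - 1) ^ 2 := sq_nonneg _
    have h42 : (u - 1) ^ 2 = u ^ 2 - 2 * u + 1 := by ring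
    linarith
  have h5 : m * (1 - 2 * d1) ≤ m * u ^ 2 := mul_le_mul_of_nonneg_left h4 hm0.le
  have h6 : m * d1 ≤ 1 * d1 := mul_le_mul_of_nonneg_right hm1 hd.le
  have h7 : (1 - m) * u ^ 2 = u ^ 2 - m * u ^ 2 := by ring
  have h8 : m * (1 - 2 * d1) = m - 2 * (m * d1) := by ring
  linarith

theorem num_up {m d1 e n R R1 rho : ℝ} (hn : 0 < n) (h1 : R - R1 ≤ (d1 + e) * n)
    (h2 : 1 * R1 + -(m * n) ≤ e * n) (hR : rho * n = R) : rho ≤ m + d1 + 2 * e := by
  have h3 : rho * n ≤ (m + d1 + 2 * e) * n := by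
    have h4 : (m + d1 + 2 * e) * n = m * n + (d1 + e) * n + e * n := by ring
    rw [h4, hR]; linarith
  exact le_of_mul_le_mul_right h3 hn

theorem num_fin {m d1 e n R R1 L S δ : ℝ} (hn : 0 < n) (hL : 0 ≤ L) (hd1 : 0 < d1)
    (hde : d1 * (16 * (L + 2)) = δ) (he : e ≤ d1) (h1 : R - R1 ≤ (d1 + e) * n)
    (h2 : L * R1 + ((R - m * n) + S / 2 - L * R) ≤ e * n)
    (h3 : (m - 2 * d1 - δ / 8) * n ≤ R) : S ≤ δ * n := by
  have h4 : L * (R - R1) ≤ L * ((d1 + e) * n) := mul_le_mul_of_nonneg_left h1 hL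
  have h5 : (d1 + e) * n ≤ (2 * d1) * n := mul_le_mul_of_nonneg_right (by linarith) hn.le
  have h6 : L * ((d1 + e) * n) ≤ L * ((2 * d1) * n) := mul_le_mul_of_nonneg_left h5 hL
  have h7 : e * n ≤ d1 * n := mul_le_mul_of_nonneg_right he hn.le
  have h8 : 0 ≤ L * d1 := mul_nonneg hL hd1.le
  have h9 : δ = 16 * (L * d1) + 32 * d1 := by rw [← hde]; ring
  have h10 : L * (R - R1) = L * R - L * R1 := by ring
  have h11 : (m - 2 * d1 - δ / 8) * n = m * n - 2 * (d1 * n) - (δ * n) / 8 := by ring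
  have h12 : L * ((2 * d1) * n) = 2 * ((L * d1) * n) := by ring
  have h13 : δ * n = 16 * ((L * d1) * n) + 32 * (d1 * n) := by rw [h9]; ring
  have h14 : 0 ≤ d1 * n := mul_nonneg hd1.le hn.le
  have h15 : 0 ≤ (L * d1) * n := mul_nonneg h8 hn.le
  linarith

theorem card_D1 {V : Type} [Fintype V] [DecidableEq V] {D1 D2 : Finset V} {d1 e : ℝ}
    (hn : 0 < Fintype.card V) (hcap : ms (D1 ∩ D2) ≤ e) (hD2 : 1 - d1 ≤ ms D2) :
    (D1.card : ℝ) ≤ (d1 + e) * (Fintype.card V : ℝ) := by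
  have hn' : (0 : ℝ) < (Fintype.card V : ℝ) := by exact_mod_cast hn
  have h1 : (D1.card : ℝ) = ((D1 ∩ D2).card : ℝ) + ((D1 \ D2).card : ℝ) := by
    have := card_inter_add_card_sdiff D1 D2
    exact_mod_cast this.symm
  have h2 : ((D1 ∩ D2).card : ℝ) ≤ e * (Fintype.card V : ℝ) := by
    unfold ms at hcap
    rwa [div_le_iff₀ hn'] at hcap
  have h3 : ((D1 \ D2).card : ℝ) ≤ (Fintype.card V : ℝ) - (D2.card : ℝ) := by
    have h4 : (D1 \ D2).card ≤ (D2ᶜ).card := by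
      apply card_le_card
      intro x hx
      rw [mem_sdiff] at hx
      rw [mem_compl]; exact hx.2
    have h5 : D2.card + (D2ᶜ).card = Fintype.card V := card_add_card_compl D2
    have h6 : (D2.card : ℝ) + ((D2ᶜ).card : ℝ) = (Fintype.card V : ℝ) := by exact_mod_cast h5
    have h7 : ((D1 \ D2).card : ℝ) ≤ ((D2ᶜ).card : ℝ) := by exact_mod_cast h4
    linarith
  have h8 : (1 - d1) * (Fintype.card V : ℝ) ≤ (D2.card : ℝ) := by
    unfold ms at hD2
    rwa [le_div_iff₀ hn'] at hD2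
  have h9 : (1 - d1) * (Fintype.card V : ℝ) = (Fintype.card V : ℝ) - d1 * (Fintype.card V : ℝ) := by
    ring
  have h10 : (d1 + e) * (Fintype.card V : ℝ) =
    d1 * (Fintype.card V : ℝ) + e * (Fintype.card V : ℝ) := by ring
  linarith

theorem sum_D1 {V : Type} [Fintype V] [DecidableEq V] {W : V → V → ℝ} (hW : Ker W)
    {D1 : Finset V} (hn : 0 < Fintype.card V) :
    ∑ x, dg W x - ∑ x ∈ D1ᶜ, dg W x ≤ (D1.card : ℝ) := by
  have hsplit : ∑ x ∈ D1, dg W x + ∑ x ∈ D1ᶜ, dg W x = ∑ x, dg W x :=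
    sum_add_sum_compl D1 (fun x => dg W x)
  have hD1sum : ∑ x ∈ D1, dg W x ≤ (D1.card : ℝ) := by
    calc ∑ x ∈ D1, dg W x ≤ ∑ _x ∈ D1, (1 : ℝ) := sum_le_sum (fun x _ => dg_le hW hn x)
      _ = (D1.card : ℝ) := by simp
  linarith

theorem sum_const' {V : Type} [Fintype V] (m : ℝ) :
    ∑ _x : V, (-m) = -(m * (Fintype.card V : ℝ)) := by
  rw [sum_const, nsmul_eq_mul, card_univ]; ring

theorem sum_quad {V : Type} [Fintype V] (W : V → V → ℝ) (m L : ℝ) :
    ∑ x, ((dg W x - m) + (dg W x - m) ^ 2 / 2 - L * dg W x) =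
      (∑ x, dg W x - m * (Fintype.card V : ℝ)) + (∑ x, (dg W x - m) ^ 2) / 2 -
        L * ∑ x, dg W x := by
  rw [sum_sub_distrib, sum_add_distrib, sum_sub_distrib, ← sum_div, ← mul_sum, sum_const,
    nsmul_eq_mul, card_univ]
  ring

theorem alm_core {k : ℕ} {δ c d1 : ℝ} (hm0 : 0 < mu k) (hm1 : mu k ≤ 1)
    (hL0 : 0 ≤ Real.log (1 / mu k)) (hd1p : 0 < d1)
    (hde : d1 * (16 * (Real.log (1 / mu k) + 2)) = δ)
    (hc1 : Cert1 (mu k) 1 (fun _ => -(mu k)))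
    (hc2 : Cert1 (mu k) (Real.log (1 / mu k))
      (fun d => (d - mu k) + (d - mu k) ^ 2 / 2 - Real.log (1 / mu k) * d))
    (hcT : ∀ (V : Type) [Fintype V] (W : V → V → ℝ), Ker W → ∀ D : Finset V,
      ((cl W D k).card : ℝ) ≤ c * (Fintype.card V : ℝ) ^ k →
      ee W D D ≤ (1 - mu k) * (ms D) ^ 2 + δ / 8)
    (V : Type) [Fintype V] [DecidableEq V] (W : V → V → ℝ) (D1 D2 : Finset V)
    (hW : Ker W) (hn : 0 < Fintype.card V) {e : ℝ} (hec : e ≤ c) (hed : e ≤ d1) (_he0 : 0 < e)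
    (hE : Ext k e W D1 D2) (hD2 : 1 - d1 ≤ ms D2) : AlmostT k δ W := by
  have hn' : (0 : ℝ) < (Fintype.card V : ℝ) := by exact_mod_cast hn
  have hnk : (0 : ℝ) < (Fintype.card V : ℝ) ^ k := by positivity
  have hD1 := card_D1 hn hE.cap hD2
  have hs1 := sum_D1 (D1 := D1) hW hn
  have hRR1 := le_trans hs1 hD1
  have hone := hE.one1 1 (fun _ => -(mu k)) hc1
  have htwo := hE.one1 _ _ hc2
  rw [sum_const'] at hone
  rw [sum_quad] at htwo
  have hRR : ee W univ univ * (Fintype.card V : ℝ) = ∑ x, dg W x := by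
    rw [ee_univ, div_mul_cancel₀ _ hn'.ne']
  have h8 : 0 ≤ Real.log (1 / mu k) * d1 := mul_nonneg hL0 hd1p.le
  have h9 : δ = 16 * (Real.log (1 / mu k) * d1) + 32 * d1 := by rw [← hde]; ring
  have hlow : mu k - 2 * d1 - δ / 8 ≤ ee W univ univ :=
    num_low hm0 hm1 hd1p hD2 (hcT V (co W) (ker_co hW) D2 (le_trans hE.c2
      (mul_le_mul_of_nonneg_right hec hnk.le))) (ee_co W D2 hn) (ee_mono hW D2)
  have hup : ee W univ univ ≤ mu k + d1 + 2 * e := num_up hn' hRR1 hone hRR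
  have hlowR : (mu k - 2 * d1 - δ / 8) * (Fintype.card V : ℝ) ≤ ∑ x, dg W x := by
    rw [← hRR]; exact mul_le_mul_of_nonneg_right hlow hn'.le
  refine ⟨D2, by linarith, le_trans hE.c2 (mul_le_mul_of_nonneg_right (by linarith) hnk.le),
    ?_, ?_⟩
  · rw [abs_le]
    constructor <;> linarith
  · exact num_fin hn' hL0 hd1p hde hed hRR1 htwo hlowR

theorem alm : Pool.Agent.W297.LP.SNum → STur → SAlmost := by
  intro hnum htur k hk δ hδ
  obtain ⟨-, -, -, hc1, hc2⟩ := hnum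
  have hk' : (4 : ℝ) ≤ (k : ℝ) := by exact_mod_cast hk
  have hm0 : 0 < mu k := by unfold mu; apply div_pos one_pos; linarith
  have hm1 : mu k ≤ 1 := by
    unfold mu
    rw [div_le_one (by linarith)]; linarith
  have hL0 : 0 ≤ Real.log (1 / mu k) := by
    apply Real.log_nonneg
    rw [le_div_iff₀ hm0]; linarith
  obtain ⟨c, hc, hcT⟩ := htur k hk (δ / 8) (by positivity)
  have hpos : 0 < 16 * (Real.log (1 / mu k) + 2) := by linarith
  have hd1p : 0 < δ / (16 * (Real.log (1 / mu k) + 2)) := div_pos hδ hpos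
  refine ⟨min c (δ / (16 * (Real.log (1 / mu k) + 2))), δ / (16 * (Real.log (1 / mu k) + 2)),
    lt_min hc hd1p, hd1p, ?_⟩
  intro V _ _ W D1 D2 hW hn hE hD2
  exact alm_core hm0 hm1 hL0 hd1p (div_mul_cancel₀ _ hpos.ne') (hc1 _ hm0 hm1) (hc2 _ hm0 hm1)
    hcT V W D1 D2 hW hn (min_le_left _ _) (min_le_right _ _) (lt_min hc hd1p) hE hD2

end Pool.Agent.W50.LP
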